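import Pool.Agent.R3.CB7

set_option autoImplicit false

/-!
# MP_cc4361_co, Q2: a positive answer, without commutativity

For every `r` and `K` there are `k` and `η > 0` such that for every abelian group `G`, all
endomorphisms `φ₁, φ₂` of `G` whose images have finite index at most `K`, and every cover (in
particular every partition) of `G` by `r` sets `A i`, some `φ₁(A i) + φ₂(A i) - φ₂(A i)` contains a
Bohr-`(k, η)` set.  The endomorphisms need not commute.
-/

open Pointwise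

namespace Pool.Agent.Results.MP_cc4361_co.NonCommutingPartition

/-- `S` is a Bohr-`(k, η)` set: the set of all `g` with `|χ_j(g) - 1| < η` for all `j`, for some
characters `χ_1, …, χ_k` of the (discrete) group `G`. -/
def IsBohrSet {G : Type*} [AddCommGroup G] (k : ℕ) (η : ℝ) (S : Set G) : Prop :=
  ∃ χ : Fin k → AddChar G Circle, S = {g : G | ∀ j, ‖((χ j g : Circle) : ℂ) - 1‖ < η}

/-- Full positive answer to Q2. (`index ≠ 0` means finite index.) -/
theorem result (r K : ℕ) : ∃ (k : ℕ) (η : ℝ), 0 < η ∧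
    ∀ (G : Type*) [AddCommGroup G] (φ₁ φ₂ : G →+ G),
      φ₁.range.index ≠ 0 → φ₁.range.index ≤ K → φ₂.range.index ≠ 0 → φ₂.range.index ≤ K →
      ∀ A : Fin r → Set G, (⋃ i, A i) = Set.univ →
        ∃ i, ∃ S : Set G, IsBohrSet k η S ∧ S ⊆ φ₁ '' A i + φ₂ '' A i - φ₂ '' A i := by
  obtain ⟨k, η, hη, h⟩ := Pool.Agent.R3.CB.main r K
  refine ⟨k, η, hη, ?_⟩
  intro G _ φ₁ φ₂ h1 h1K h2 h2K A hA
  obtain ⟨i, χ, hχ⟩ := h G φ₁ φ₂ h1 h1K h2 h2K A (fun x => by
    have : x ∈ ⋃ i, A i := by rw [hA]; trivial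
    exact Set.mem_iUnion.1 this)
  refine ⟨i, _, ⟨χ, rfl⟩, ?_⟩
  intro g hg
  obtain ⟨a, ha, b, hb, d, hd, hgeq⟩ := hχ g hg
  rw [hgeq]
  exact Set.sub_mem_sub (Set.add_mem_add (Set.mem_image_of_mem _ ha) (Set.mem_image_of_mem _ hb))
    (Set.mem_image_of_mem _ hd)

end Pool.Agent.Results.MP_cc4361_co.NonCommutingPartition
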